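import Mathlib

/-!
# Homogeneous ideals of polynomial rings behave as in a local ring at the origin
-/

set_option autoImplicit false

namespace Pool.Agent.Q271.LSS

open MvPolynomial

section hom

variable {σ k : Type*} [Field k] (J : Ideal (MvPolynomial σ k))

/-- The substitution `X_i ↦ λ X_i` modulo `J`. -/
noncomputable def Phi : MvPolynomial σ k →+* Polynomial (MvPolynomial σ k ⧸ J) :=
  eval₂Hom (Polynomial.C.comp ((Ideal.Quotient.mk J).comp C))
    (fun i => Polynomial.X * Polynomial.C (Ideal.Quotient.mk J (X i)))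

lemma Phi_X (i : σ) : Phi J (X i) = Polynomial.X * Polynomial.C (Ideal.Quotient.mk J (X i)) := by
  simp [Phi]

lemma Phi_C (a : k) : Phi J (C a) = Polynomial.C (Ideal.Quotient.mk J (C a)) := by
  simp [Phi]

lemma Phi_monomial (s : σ →₀ ℕ) (a : k) :
    Phi J (monomial s a) = Polynomial.X ^ (s.degree) *
      Polynomial.C (Ideal.Quotient.mk J (monomial s a)) := by
  rw [monomial_eq, map_mul, Phi_C, Finsupp.prod, map_prod, map_mul, map_prod, map_mul]
  have h : ∀ i ∈ s.support, Phi J (X i ^ s i) =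
      Polynomial.X ^ s i * Polynomial.C (Ideal.Quotient.mk J (X i ^ s i)) := by
    intro i _
    rw [map_pow, Phi_X, map_pow, map_pow]
    exact mul_pow (M := Polynomial (MvPolynomial σ k ⧸ J)) _ _ _
  rw [Finset.prod_congr rfl h, Finset.prod_mul_distrib, Finset.prod_pow_eq_pow_sum, map_prod]
  rw [Finsupp.degree_apply]
  ring

lemma Phi_of_isHomogeneous {p : MvPolynomial σ k} {n : ℕ} (hp : p.IsHomogeneous n) :
    Phi J p = Polynomial.X ^ n * Polynomial.C (Ideal.Quotient.mk J p) := by
  conv_lhs => rw [p.as_sum]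
  conv_rhs => rw [p.as_sum]
  rw [map_sum, map_sum, map_sum, Finset.mul_sum]
  refine Finset.sum_congr rfl fun s hs => ?_
  rw [Phi_monomial]
  have : s.degree = n := by
    have := hp (mem_support_iff.1 hs)
    rwa [Finsupp.degree_eq_weight_one]
  rw [this]

lemma Phi_coeff_zero (p : MvPolynomial σ k) :
    (Phi J p).coeff 0 = Ideal.Quotient.mk J (C (constantCoeff p)) := by
  have h : (Polynomial.constantCoeff.comp (Phi J)) =
      ((Ideal.Quotient.mk J).comp C).comp constantCoeff := by
    apply MvPolynomial.ringHom_ext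
    · intro a; simp [Phi_C]
    · intro i; simp [Phi_X]
  exact congrArg (fun f => f p) h

lemma Phi_eval_one (p : MvPolynomial σ k) :
    (Phi J p).eval 1 = Ideal.Quotient.mk J p := by
  have h : ((Polynomial.evalRingHom 1).comp (Phi J)) = Ideal.Quotient.mk J := by
    apply MvPolynomial.ringHom_ext
    · intro a; simp [Phi_C]
    · intro i; simp [Phi_X]
  exact congrArg (fun f => f p) h

lemma eq_zero_of_unit_mul {R : Type*} [CommRing R] {a b : Polynomial R} (ha : a.coeff 0 = 1)
    (hab : a * b = 0) : b = 0 := by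
  have h1 : IsUnit (a : PowerSeries R) := by
    rw [PowerSeries.isUnit_iff_constantCoeff]
    simp [ha]
  have h2 : (a : PowerSeries R) * (b : PowerSeries R) = 0 := by
    rw [← Polynomial.coe_mul, hab, Polynomial.coe_zero]
  have h3 : (b : PowerSeries R) = 0 := (h1.mul_right_eq_zero).1 h2
  exact Polynomial.coe_eq_zero_iff.1 h3

end hom

/-- An ideal generated by homogeneous polynomials is closed with respect to the origin. -/
theorem mem_of_mul_mem {σ k : Type*} [Field k] {G : Set (MvPolynomial σ k)}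
    (hG : ∀ g ∈ G, ∃ n, g.IsHomogeneous n) {r q : MvPolynomial σ k} (hr : constantCoeff r = 1)
    (hrq : r * q ∈ Ideal.span G) : q ∈ Ideal.span G := by
  have hJ : Ideal.span G ≤ RingHom.ker (Phi (Ideal.span G)) := by
    rw [Ideal.span_le]
    intro g hg
    obtain ⟨n, hn⟩ := hG g hg
    rw [SetLike.mem_coe, RingHom.mem_ker, Phi_of_isHomogeneous _ hn,
      Ideal.Quotient.eq_zero_iff_mem.2 (Ideal.subset_span hg)]
    simp
  have h1 : Phi (Ideal.span G) r * Phi (Ideal.span G) q = 0 := by
    rw [← map_mul]; exact hJ hrq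
  have h2 : Phi (Ideal.span G) q = 0 := by
    refine eq_zero_of_unit_mul ?_ h1
    rw [Phi_coeff_zero, hr]; simp
  have h3 := Phi_eval_one (Ideal.span G) q
  rw [h2, Polynomial.eval_zero] at h3
  exact Ideal.Quotient.eq_zero_iff_mem.1 h3.symm

section noeth

variable {T : Type*} [CommRing T] [IsNoetherianRing T]

/-- Nakayama's lemma: a form of it for ideals `J ≤ Q` with `Q = J + f Q`. -/
theorem nakayama {J Q : Ideal T} {f : T}
    (h : ∀ q ∈ Q, ∃ b ∈ J, ∃ c ∈ Q, q = b + f * c) :
    ∃ r : T, r - 1 ∈ Ideal.span {f} ∧ ∀ q ∈ Q, r * q ∈ J := by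
  obtain ⟨r, h1, h2⟩ := Submodule.exists_sub_one_mem_and_smul_le_of_fg_of_le_sup
    (I := Ideal.span {f}) (N := J) (N' := Q) (P := Q) (IsNoetherian.noetherian Q) le_rfl (by
      intro q hq
      obtain ⟨b, hb, c, hc, rfl⟩ := h q hq
      refine Submodule.add_mem_sup hb ?_
      exact Submodule.smul_mem_smul (Ideal.subset_span rfl) hc)
  exact ⟨r, h1, fun q hq => h2 (Submodule.smul_mem_pointwise_smul q r Q hq)⟩

/-- Krull's intersection theorem in `T ⧸ B`. -/
theorem krull (B : Ideal T) (z x : T) (hn : ∀ n : ℕ, ∃ y : T, x - z ^ n * y ∈ B) :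
    ∃ r : T, r ∈ Ideal.span {z} ∧ r * x - x ∈ B := by
  have h1 : (Submodule.Quotient.mk x : T ⧸ B) ∈
      (⨅ i : ℕ, (Ideal.span {z}) ^ i • ⊤ : Submodule T (T ⧸ B)) := by
    rw [Submodule.mem_iInf]
    intro n
    obtain ⟨y, hy⟩ := hn n
    have h2 : (Submodule.Quotient.mk x : T ⧸ B) = (z ^ n) • (Submodule.Quotient.mk y : T ⧸ B) := by
      rw [← Submodule.Quotient.mk_smul]
      exact (Submodule.Quotient.eq B).2 hy
    rw [h2]
    exact Submodule.smul_mem_smul
      (Ideal.pow_mem_pow (Ideal.mem_span_singleton_self z) n) Submodule.mem_top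
  obtain ⟨⟨r, hr⟩, h3⟩ := (Ideal.mem_iInf_smul_pow_eq_bot_iff (Ideal.span {z})
    (Submodule.Quotient.mk x : T ⧸ B)).1 h1
  refine ⟨r, hr, ?_⟩
  have h4 : r • (Submodule.Quotient.mk x : T ⧸ B) = Submodule.Quotient.mk x := h3
  rw [← Submodule.Quotient.mk_smul] at h4
  exact (Submodule.Quotient.eq B).1 h4

/-- Lifting primality along a regular element. -/
theorem isPrime_of_sup {B : Ideal T} {z : T}
    (hH : ∀ r q : T, r - 1 ∈ Ideal.span {z} → r * q ∈ B → q ∈ B)
    (hz : ∀ x : T, z * x ∈ B → x ∈ B) (hp : (B ⊔ Ideal.span {z}).IsPrime) : B.IsPrime := by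
  have key : ∀ x : T, x ∉ B → ∃ (a : ℕ) (x' : T), x - z ^ a * x' ∈ B ∧
      x' ∉ B ⊔ Ideal.span {z} := by
    intro x hx
    by_contra hcon
    push Not at hcon
    apply hx
    have hn : ∀ n : ℕ, ∃ y : T, x - z ^ n * y ∈ B := by
      intro n
      induction n with
      | zero => exact ⟨x, by simp⟩
      | succ n ih =>
        obtain ⟨y, hy⟩ := ih
        obtain ⟨b, hb, w, hw, hbw⟩ := Submodule.mem_sup.1 (hcon n y hy)
        obtain ⟨u, rfl⟩ := Ideal.mem_span_singleton'.1 hw
        refine ⟨u, ?_⟩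
        have : x - z ^ (n + 1) * u = (x - z ^ n * y) + z ^ n * b := by
          rw [← hbw]; ring
        rw [this]
        exact B.add_mem hy (B.mul_mem_left _ hb)
    obtain ⟨r, hrm, hr⟩ := krull B z x hn
    refine hH (1 - r) x ?_ ?_
    · rw [show (1 - r) - 1 = -r by ring]
      exact (Ideal.span {z}).neg_mem hrm
    · rw [show (1 - r) * x = -(r * x - x) by ring]
      exact B.neg_mem hr
  have hpow : ∀ (n : ℕ) (x : T), z ^ n * x ∈ B → x ∈ B := by
    intro n
    induction n with
    | zero => intro x hx; simpa using hx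
    | succ n ih =>
      intro x hx
      apply ih
      apply hz
      rwa [← mul_assoc, ← pow_succ']
  refine ⟨?_, ?_⟩
  · rintro rfl
    exact hp.ne_top (by simp)
  · intro x y hxy
    by_contra hcon
    push Not at hcon
    obtain ⟨a, x', hx1, hx2⟩ := key x hcon.1
    obtain ⟨b, y', hy1, hy2⟩ := key y hcon.2
    have h1 : z ^ (a + b) * (x' * y') ∈ B := by
      have : z ^ (a + b) * (x' * y') = x * y - (x - z ^ a * x') * y -
          (z ^ a * x') * (y - z ^ b * y') := by ring
      rw [this]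
      exact B.sub_mem (B.sub_mem hxy (B.mul_mem_right _ hx1)) (B.mul_mem_left _ hy1)
    have h2 : x' * y' ∈ B ⊔ Ideal.span {z} := (le_sup_left : B ≤ _) (hpow _ _ h1)
    rcases hp.mem_or_mem h2 with h | h
    · exact hx2 h
    · exact hy2 h

end noeth

end Pool.Agent.Q271.LSS
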