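import Pool.Agent.Q271.LSS.Lift

/-!
# Primality by killing variables
-/

set_option autoImplicit false

namespace Pool.Agent.Q271.LSS

open MvPolynomial

universe u v

section kill

variable {σ k : Type*} [Field k]

lemma scale_of_isHomogeneous {R : Type*} [CommRing R] {θ θ' : MvPolynomial σ k →+* R} {c : R}
    (hC : ∀ a, θ' (C a) = θ (C a)) (hX : ∀ z, θ' (X z) = c * θ (X z)) {p : MvPolynomial σ k} {n : ℕ}
    (hp : p.IsHomogeneous n) : θ' p = c ^ n * θ p := by
  have hmon : ∀ (s : σ →₀ ℕ) (a : k), θ' (monomial s a) = c ^ s.degree * θ (monomial s a) := by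
    intro s a
    rw [monomial_eq, map_mul, hC, Finsupp.prod, map_prod, map_mul, map_prod]
    have h : ∀ i ∈ s.support, θ' (X i ^ s i) = c ^ s i * θ (X i ^ s i) := by
      intro i _
      rw [map_pow, hX, map_pow, mul_pow]
    rw [Finset.prod_congr rfl h, Finset.prod_mul_distrib, Finset.prod_pow_eq_pow_sum,
      Finsupp.degree_apply]
    ring
  conv_lhs => rw [p.as_sum]
  conv_rhs => rw [p.as_sum]
  rw [map_sum, map_sum, Finset.mul_sum]
  refine Finset.sum_congr rfl fun s hs => ?_
  rw [hmon]
  have : s.degree = n := by
    have := hp (mem_support_iff.1 hs)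
    rwa [Finsupp.degree_eq_weight_one]
  rw [this]

variable (k) in
/-- setting the bad variables to zero -/
noncomputable def kill (bad : σ → Prop) [DecidablePred bad] :
    MvPolynomial σ k →+* MvPolynomial σ k :=
  eval₂Hom C (fun z => if bad z then 0 else X z)

variable (bad : σ → Prop) [DecidablePred bad]

lemma kill_X (z : σ) : kill k bad (X z) = if bad z then 0 else X z := by
  rw [kill, coe_eval₂Hom, eval₂_X]

lemma kill_C (a : k) : kill k bad (C a) = C a := by
  rw [kill, coe_eval₂Hom, eval₂_C]

theorem prime_of_kill {ι : Type*} [DecidableEq ι] [Finite σ] (f : ι → MvPolynomial σ k)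
    (hf : ∀ i, ∃ n, 0 < n ∧ (f i).IsHomogeneous n) (E : Set ι) (hfin : E.Finite)
    (hprime : ∀ W ⊆ E, (Ideal.span ((fun i => kill k bad (f i)) '' W)).IsPrime)
    (hnot : ∀ W ⊆ E, ∀ i ∈ E, i ∉ W →
      kill k bad (f i) ∉ Ideal.span ((fun i => kill k bad (f i)) '' W)) :
    (Ideal.span (f '' E)).IsPrime := by
  classical
  set δ : MvPolynomial σ k →+* MvPolynomial (Option σ) k :=
    eval₂Hom C (fun z => if bad z then X none * X (some z) else X (some z)) with hδ
  have hδX : ∀ z, δ (X z) = if bad z then X none * X (some z) else X (some z) := by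
    intro z; rw [hδ, coe_eval₂Hom, eval₂_X]
  have hδC : ∀ a, δ (C a) = C a := by intro a; rw [hδ, coe_eval₂Hom, eval₂_C]
  set F : ι → MvPolynomial (Option σ) k := fun i => δ (f i) with hF
  set π : MvPolynomial (Option σ) k →+* MvPolynomial σ k :=
    eval₂Hom C (fun o => o.elim 0 X) with hπ
  have hπn : π (X none) = 0 := by rw [hπ, coe_eval₂Hom, eval₂_X]; rfl
  have hπs : ∀ z, π (X (some z)) = X z := by intro z; rw [hπ, coe_eval₂Hom, eval₂_X]; rfl
  have hπC : ∀ a, π (C a) = C a := by intro a; rw [hπ, coe_eval₂Hom, eval₂_C]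
  have hπδ : ∀ p, π (δ p) = kill k bad p := by
    have h : π.comp δ = kill k bad := by
      apply MvPolynomial.ringHom_ext
      · intro a; rw [RingHom.comp_apply, hδC, hπC, kill_C]
      · intro z
        rw [RingHom.comp_apply, hδX, kill_X]
        split_ifs
        · rw [map_mul, hπn, zero_mul]
        · rw [hπs]
    intro p
    exact congrArg (fun f => f p) h
  set s : MvPolynomial σ k →+* MvPolynomial (Option σ) k := eval₂Hom C (fun z => X (some z)) with hs
  have hsX : ∀ z, s (X z) = X (some z) := by intro z; rw [hs, coe_eval₂Hom, eval₂_X]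
  have hsC : ∀ a, s (C a) = C a := by intro a; rw [hs, coe_eval₂Hom, eval₂_C]
  have hpi : ∀ W ⊆ E, Ideal.span (F '' W) ⊔ Ideal.span {X none} =
      (Ideal.span ((fun i => kill k bad (f i)) '' W)).comap π := by
    intro W _
    apply le_antisymm
    · rw [sup_le_iff]
      constructor
      · rw [Ideal.span_le]
        rintro _ ⟨i, hi, rfl⟩
        rw [SetLike.mem_coe, Ideal.mem_comap]
        show π (δ (f i)) ∈ _
        rw [hπδ]
        exact Ideal.subset_span ⟨i, hi, rfl⟩
      · rw [Ideal.span_le, Set.singleton_subset_iff, SetLike.mem_coe, Ideal.mem_comap, hπn]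
        exact Ideal.zero_mem _
    · intro x hx
      rw [Ideal.mem_comap] at hx
      set B := Ideal.span (F '' W) ⊔ Ideal.span {X none} with hB
      have hmk : ∀ y, Ideal.Quotient.mk B (s (π y)) = Ideal.Quotient.mk B y := by
        have h : (Ideal.Quotient.mk B).comp (s.comp π) = Ideal.Quotient.mk B := by
          apply MvPolynomial.ringHom_ext
          · intro a; rw [RingHom.comp_apply, RingHom.comp_apply, hπC, hsC]
          · rintro (_ | z)
            · rw [RingHom.comp_apply, RingHom.comp_apply, hπn, map_zero, map_zero]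
              exact (Ideal.Quotient.eq_zero_iff_mem.2
                (Ideal.mem_sup_right (Ideal.mem_span_singleton_self _))).symm
            · rw [RingHom.comp_apply, RingHom.comp_apply, hπs, hsX]
        intro y
        exact congrArg (fun f => f y) h
      have h1 : Ideal.span ((fun i => kill k bad (f i)) '' W) ≤ B.comap s := by
        rw [Ideal.span_le]
        rintro _ ⟨i, hi, rfl⟩
        rw [SetLike.mem_coe, Ideal.mem_comap]
        show s (kill k bad (f i)) ∈ B
        rw [← hπδ, ← Ideal.Quotient.eq_zero_iff_mem, hmk, Ideal.Quotient.eq_zero_iff_mem]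
        exact Ideal.mem_sup_left (Ideal.subset_span ⟨i, hi, rfl⟩)
      have h2 := h1 hx
      rw [Ideal.mem_comap, ← Ideal.Quotient.eq_zero_iff_mem, hmk] at h2
      exact Ideal.Quotient.eq_zero_iff_mem.1 h2
  have hFprime : (Ideal.span (F '' E)).IsPrime := by
    have h := lift_family F (X none) E ?_ (fun W hW => by
        rw [hpi W hW]
        have := hprime W hW
        exact Ideal.IsPrime.comap π) (fun W hW i hi hiW hmem => by
        rw [hpi W hW, Ideal.mem_comap] at hmem
        have h : π (F i) = kill k bad (f i) := hπδ (f i)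
        rw [h] at hmem
        exact hnot W hW i hi hiW hmem) ?_ hfin.toFinset (by rw [Set.Finite.coe_toFinset])
    · rwa [Set.Finite.coe_toFinset] at h
    · intro W hW r x hr hrx
      set ω : Option σ → ℕ := fun o => o.elim 1 (fun z => if bad z then 1 else 2) with hω
      have hω0 : ∀ o, 0 < ω o := by
        rintro (_ | z)
        · exact Nat.one_pos
        · rw [hω]
          simp only [Option.elim_some]
          split_ifs <;> norm_num
      refine mem_of_mul_mem_weighted hω0 ?_ ?_ hrx
      · rintro _ ⟨i, _, rfl⟩
        obtain ⟨n, -, hn⟩ := hf i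
        refine ⟨2 * n, ?_⟩
        have h := scale_of_isHomogeneous (θ := Polynomial.C.comp δ) (θ' := (Psi k ω).comp δ)
          (c := Polynomial.X ^ 2) (by
            intro a
            rw [RingHom.comp_apply, RingHom.comp_apply, hδC, Psi_C]) (by
            intro z
            rw [RingHom.comp_apply, RingHom.comp_apply, hδX]
            split_ifs with hz
            · rw [map_mul, Psi_X, Psi_X, map_mul]
              have h1 : ω none = 1 := rfl
              have h2 : ω (some z) = 1 := by rw [hω]; simp [hz]
              rw [h1, h2]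
              ring
            · rw [Psi_X]
              have h2 : ω (some z) = 2 := by rw [hω]; simp [hz]
              rw [h2]) hn
        rw [RingHom.comp_apply, RingHom.comp_apply, ← pow_mul] at h
        exact h
      · obtain ⟨y, hy⟩ := Ideal.mem_span_singleton'.1 hr
        have : r = 1 + y * X none := by rw [hy]; ring
        rw [this, map_add, map_mul, constantCoeff_X]
        simp
    · intro W _ hmem
      have hker : Ideal.span (F '' W) ≤
          RingHom.ker (eval (fun o : Option σ => o.elim (1 : k) (fun _ => 0))) := by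
        rw [Ideal.span_le]
        rintro _ ⟨i, _, rfl⟩
        obtain ⟨n, hn0, hn⟩ := hf i
        rw [SetLike.mem_coe, RingHom.mem_ker]
        have h := scale_of_isHomogeneous
          (θ := (eval (fun o : Option σ => o.elim (1 : k) (fun _ => 0))).comp δ)
          (θ' := (eval (fun o : Option σ => o.elim (1 : k) (fun _ => 0))).comp δ) (c := 0)
          (fun a => rfl) (by
            intro z
            rw [RingHom.comp_apply, hδX, zero_mul]
            split_ifs
            · rw [map_mul, eval_X, eval_X]; simp
            · rw [eval_X]; rfl) hn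
        rw [zero_pow hn0.ne', zero_mul] at h
        exact h
      have h1 := hker hmem
      rw [RingHom.mem_ker, eval_X] at h1
      exact one_ne_zero h1
  set Θ : MvPolynomial (Option σ) k →+* MvPolynomial σ k := eval₂Hom C (fun o => o.elim 1 X) with hΘ
  have hΘδ : ∀ p, Θ (δ p) = p := by
    have h : Θ.comp δ = RingHom.id _ := by
      apply MvPolynomial.ringHom_ext
      · intro a; rw [RingHom.comp_apply, hδC, hΘ, coe_eval₂Hom, eval₂_C]; rfl
      · intro z
        rw [RingHom.comp_apply, hδX]
        split_ifs
        · rw [map_mul, hΘ, coe_eval₂Hom, eval₂_X, eval₂_X]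
          simp
        · rw [hΘ, coe_eval₂Hom, eval₂_X]; rfl
    intro p
    exact congrArg (fun f => f p) h
  have heq : Ideal.span (f '' E) = (Ideal.span (F '' E)).comap δ := by
    apply le_antisymm
    · rw [Ideal.span_le]
      rintro _ ⟨i, hi, rfl⟩
      rw [SetLike.mem_coe, Ideal.mem_comap]
      exact Ideal.subset_span ⟨i, hi, rfl⟩
    · intro x hx
      rw [Ideal.mem_comap] at hx
      have h1 : Ideal.span (F '' E) ≤ (Ideal.span (f '' E)).comap Θ := by
        rw [Ideal.span_le]
        rintro _ ⟨i, hi, rfl⟩
        rw [SetLike.mem_coe, Ideal.mem_comap]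
        show Θ (δ (f i)) ∈ _
        rw [hΘδ]
        exact Ideal.subset_span ⟨i, hi, rfl⟩
      have h2 := h1 hx
      rwa [Ideal.mem_comap, hΘδ] at h2
  rw [heq]
  exact Ideal.IsPrime.comap δ

end kill

section products

variable {σ : Type u} {k : Type v} [Field k] [DecidableEq σ]

theorem products {ι : Type*} [DecidableEq ι] {g h : ι → MvPolynomial σ k} {P : ι → Finset σ}
    (hg : ∀ i, g i = ∏ z ∈ P i, X z + h i) (hPne : ∀ i, (P i).Nonempty)
    (hPd : ∀ i j, i ≠ j → Disjoint (P i) (P j)) (hh0 : ∀ i, h i ≠ 0)
    (hclean : ∀ i, ∀ [DecidablePred fun z => ∃ j, z ∈ P j],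
      kill k (fun z => ∃ j, z ∈ P j) (h i) = h i) (W : Finset ι) :
    (Ideal.span (g '' (W : Set ι))).IsPrime ∧ ∀ i, i ∉ W → g i ∉ Ideal.span (g '' (W : Set ι)) := by
  classical
  have hPinj : Function.Injective P := by
    intro i j hij
    by_contra hne
    have h1 := hPd i j hne
    rw [hij, disjoint_self, Finset.bot_eq_empty] at h1
    exact (hPne j).ne_empty h1
  constructor
  · set h' : Finset σ → MvPolynomial σ k := Function.extend P h 0 with hh'
    have hh'P : ∀ i, h' (P i) = h i := fun i => hPinj.extend_apply _ _ _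
    have hJ := disjoint_prime (V := σ) (W.image P) (MvPolynomial σ k) h' (by
        intro A hA
        obtain ⟨i, -, rfl⟩ := Finset.mem_image.1 hA
        exact hPne i) (by
        intro A hA B hB hAB
        obtain ⟨i, -, rfl⟩ := Finset.mem_image.1 hA
        obtain ⟨j, -, rfl⟩ := Finset.mem_image.1 hB
        exact hPd i j (fun h => hAB (congrArg P h))) (by
        intro A hA
        obtain ⟨i, -, rfl⟩ := Finset.mem_image.1 hA
        rw [hh'P]
        exact hh0 i)
    set J := Ideal.span ((fun A : Finset σ => (∏ v ∈ A, X v + C (h' A) :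
      MvPolynomial σ (MvPolynomial σ k))) '' ((W.image P : Finset (Finset σ)) : Set (Finset σ)))
      with hJdef
    set χ : MvPolynomial σ k →+* MvPolynomial σ (MvPolynomial σ k) :=
      eval₂Hom (C.comp C) (fun z => if ∃ j, z ∈ P j then X z else C (X z)) with hχ
    have hχX : ∀ z, χ (X z) = if ∃ j, z ∈ P j then X z else C (X z) := by
      intro z; rw [hχ, coe_eval₂Hom, eval₂_X]
    have hχC : ∀ a, χ (C a) = C (C a) := by intro a; rw [hχ, coe_eval₂Hom, eval₂_C]; rfl
    have hχh : ∀ i, χ (h i) = C (h i) := by
      have h1 : χ.comp (kill k (fun z => ∃ j, z ∈ P j)) =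
          (C : MvPolynomial σ k →+* _).comp (kill k (fun z => ∃ j, z ∈ P j)) := by
        apply MvPolynomial.ringHom_ext
        · intro a; rw [RingHom.comp_apply, RingHom.comp_apply, kill_C, hχC]
        · intro z
          rw [RingHom.comp_apply, RingHom.comp_apply, kill_X]
          split_ifs with hz
          · rw [map_zero, map_zero]
          · rw [hχX, if_neg hz]
      intro i
      have h2 := congrArg (fun f => f (h i)) h1
      simp only [RingHom.comp_apply] at h2
      rwa [hclean i] at h2
    have hχg : ∀ i, χ (g i) = ∏ v ∈ P i, X v + C (h' (P i)) := by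
      intro i
      rw [hg, map_add, map_prod, hχh, hh'P]
      congr 1
      refine Finset.prod_congr rfl fun z hz => ?_
      rw [hχX, if_pos ⟨i, hz⟩]
    set τ : MvPolynomial σ (MvPolynomial σ k) →+* MvPolynomial σ k :=
      eval₂Hom (RingHom.id _) X with hτ
    have hτX : ∀ z, τ (X z) = X z := by intro z; rw [hτ, coe_eval₂Hom, eval₂_X]
    have hτC : ∀ a, τ (C a) = a := by intro a; rw [hτ, coe_eval₂Hom, eval₂_C]; rfl
    have hτχ : ∀ x, τ (χ x) = x := by
      have h1 : τ.comp χ = RingHom.id _ := by
        apply MvPolynomial.ringHom_ext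
        · intro a; rw [RingHom.comp_apply, hχC, hτC]; rfl
        · intro z
          rw [RingHom.comp_apply, hχX]
          split_ifs
          · rw [hτX]; rfl
          · rw [hτC]; rfl
      intro x
      exact congrArg (fun f => f x) h1
    have heq : Ideal.span (g '' (W : Set ι)) = J.comap χ := by
      apply le_antisymm
      · rw [Ideal.span_le]
        rintro _ ⟨i, hi, rfl⟩
        rw [SetLike.mem_coe, Ideal.mem_comap, hχg]
        exact Ideal.subset_span ⟨P i, Finset.mem_coe.2 (Finset.mem_image_of_mem _ hi), rfl⟩
      · intro x hx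
        rw [Ideal.mem_comap] at hx
        have h1 : J ≤ (Ideal.span (g '' (W : Set ι))).comap τ := by
          rw [hJdef, Ideal.span_le]
          rintro _ ⟨A, hA, rfl⟩
          obtain ⟨i, hi, rfl⟩ := Finset.mem_image.1 (Finset.mem_coe.1 hA)
          rw [SetLike.mem_coe, Ideal.mem_comap]
          simp only
          rw [map_add, map_prod, hτC, hh'P, Finset.prod_congr rfl fun z _ => hτX z, ← hg]
          exact Ideal.subset_span ⟨i, hi, rfl⟩
        have h2 := h1 hx
        rwa [Ideal.mem_comap, hτχ] at h2
    rw [heq]
    exact Ideal.IsPrime.comap χ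
  · intro i hi hmem
    choose c hc using hPne
    set e : MvPolynomial σ k →+* MvPolynomial σ k :=
      eval₂Hom C (fun z => if hz : ∃ j, z ∈ P j then
        (if hz.choose ∈ W then (if z = c hz.choose then - h hz.choose else 1) else 0) else X z)
      with he
    have heX : ∀ (j : ι) (z : σ), z ∈ P j → e (X z) =
        if j ∈ W then (if z = c j then - h j else 1) else 0 := by
      intro j z hz
      have hz' : ∃ j, z ∈ P j := ⟨j, hz⟩
      have h1 : hz'.choose = j := by
        by_contra hne
        exact (Finset.disjoint_left.1 (hPd _ _ hne) hz'.choose_spec) hz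
      rw [he, coe_eval₂Hom, eval₂_X, dif_pos hz', h1]
    have heh : ∀ j, e (h j) = h j := by
      have h1 : e.comp (kill k (fun z => ∃ j, z ∈ P j)) = kill k (fun z => ∃ j, z ∈ P j) := by
        apply MvPolynomial.ringHom_ext
        · intro a; rw [RingHom.comp_apply, kill_C, he, coe_eval₂Hom, eval₂_C]
        · intro z
          rw [RingHom.comp_apply, kill_X]
          split_ifs with hz
          · rw [map_zero]
          · rw [he, coe_eval₂Hom, eval₂_X, dif_neg hz]
      intro j
      have h2 := congrArg (fun f => f (h j)) h1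
      simp only [RingHom.comp_apply] at h2
      rwa [hclean j] at h2
    have hker : Ideal.span (g '' (W : Set ι)) ≤ RingHom.ker e := by
      rw [Ideal.span_le]
      rintro _ ⟨j, hj, rfl⟩
      rw [SetLike.mem_coe, RingHom.mem_ker, hg, map_add, map_prod, heh,
        ← Finset.mul_prod_erase (P j) _ (hc j), heX j _ (hc j), if_pos (Finset.mem_coe.1 hj),
        if_pos rfl, Finset.prod_eq_one, mul_one, neg_add_cancel]
      intro z hz
      rw [heX j z (Finset.mem_of_mem_erase hz), if_pos (Finset.mem_coe.1 hj),
        if_neg (Finset.ne_of_mem_erase hz)]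
    have h1 := hker hmem
    rw [RingHom.mem_ker, hg, map_add, map_prod, heh, Finset.prod_eq_zero (hc i)
      (by rw [heX i _ (hc i), if_neg hi]), zero_add] at h1
    exact hh0 i h1

/-- The combination of the two statements. -/
theorem prime_of_products {ι : Type*} [Finite ι] [DecidableEq ι] [Finite σ]
    (f : ι → MvPolynomial σ k) (hf : ∀ i, ∃ n, 0 < n ∧ (f i).IsHomogeneous n)
    (bad : σ → Prop) [DecidablePred bad] {h : ι → MvPolynomial σ k} {P : ι → Finset σ}
    (hg : ∀ i, kill k bad (f i) = ∏ z ∈ P i, X z + h i) (hPne : ∀ i, (P i).Nonempty)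
    (hPd : ∀ i j, i ≠ j → Disjoint (P i) (P j)) (hh0 : ∀ i, h i ≠ 0)
    (hclean : ∀ i, ∀ [DecidablePred fun z => ∃ j, z ∈ P j],
      kill k (fun z => ∃ j, z ∈ P j) (h i) = h i) :
    (Ideal.span (Set.range f)).IsPrime := by
  rw [← Set.image_univ]
  have key := fun W => products (k := k) (g := fun i => kill k bad (f i)) hg hPne hPd hh0 hclean W
  refine prime_of_kill bad f hf Set.univ Set.finite_univ ?_ ?_
  · intro W _
    have h1 := (key (Set.toFinite W).toFinset).1
    rwa [Set.Finite.coe_toFinset] at h1
  · intro W _ i _ hi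
    have h1 := (key (Set.toFinite W).toFinset).2 i (by rwa [Set.Finite.mem_toFinset])
    rwa [Set.Finite.coe_toFinset] at h1

end products

end Pool.Agent.Q271.LSS
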