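import Pool.Agent.Q271.LSS.Grad

/-!
# Lifting primality of families of weighted homogeneous polynomials; linear equations over a domain
-/

set_option autoImplicit false

namespace Pool.Agent.Q271.LSS

open MvPolynomial

section weighted

variable {σ k : Type*} [Field k]

/-- The substitution `X_i ↦ λ^{ω_i} X_i`. -/
noncomputable def Psi (k : Type*) [Field k] {σ : Type*} (ω : σ → ℕ) :
    MvPolynomial σ k →+* Polynomial (MvPolynomial σ k) :=
  eval₂Hom (Polynomial.C.comp C) (fun i => Polynomial.X ^ ω i * Polynomial.C (X i))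

lemma Psi_X (ω : σ → ℕ) (i : σ) :
    Psi k ω (X i) = Polynomial.X ^ ω i * Polynomial.C (X i) := by simp [Psi]

lemma Psi_C (ω : σ → ℕ) (a : k) : Psi k ω (C a) = Polynomial.C (C a) := by simp [Psi]

/-- An ideal generated by weighted homogeneous polynomials (with positive weights) is closed with
respect to the origin. -/
theorem mem_of_mul_mem_weighted {ω : σ → ℕ} (hω : ∀ i, 0 < ω i) {G : Set (MvPolynomial σ k)}
    (hG : ∀ g ∈ G, ∃ n : ℕ, Psi k ω g = Polynomial.X ^ n * Polynomial.C g)
    {r q : MvPolynomial σ k} (hr : constantCoeff r = 1)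
    (hrq : r * q ∈ Ideal.span G) : q ∈ Ideal.span G := by
  set J := Ideal.span G with hJdef
  set Φ : MvPolynomial σ k →+* Polynomial (MvPolynomial σ k ⧸ J) :=
    (Polynomial.mapRingHom (Ideal.Quotient.mk J)).comp (Psi k ω) with hΦ
  have hJ : J ≤ RingHom.ker Φ := by
    refine Ideal.span_le.2 ?_
    intro g hg
    obtain ⟨n, hn⟩ := hG g hg
    rw [SetLike.mem_coe, RingHom.mem_ker, hΦ, RingHom.comp_apply, hn, map_mul,
      Polynomial.coe_mapRingHom, Polynomial.map_C,
      Ideal.Quotient.eq_zero_iff_mem.2 (Ideal.subset_span hg)]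
    simp
  have h1 : Φ r * Φ q = 0 := by
    rw [← map_mul]; exact hJ hrq
  have h0 : (Φ r).coeff 0 = 1 := by
    have h : (Polynomial.constantCoeff.comp Φ) =
        ((Ideal.Quotient.mk J).comp C).comp constantCoeff := by
      apply MvPolynomial.ringHom_ext
      · intro a; simp [hΦ, Psi_C]
      · intro i
        simp only [hΦ, RingHom.comp_apply, Psi_X, constantCoeff_X, map_zero]
        simp
        intro h0
        exact absurd h0 (hω i).ne
    have h' : (Φ r).coeff 0 = ((Ideal.Quotient.mk J).comp C) (constantCoeff r) :=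
      congrArg (fun f => f r) h
    rw [h', hr, map_one]
  have h2 : Φ q = 0 := eq_zero_of_unit_mul h0 h1
  have h3 : (Φ q).eval 1 = Ideal.Quotient.mk J q := by
    have h : ((Polynomial.evalRingHom 1).comp Φ) = Ideal.Quotient.mk J := by
      apply MvPolynomial.ringHom_ext
      · intro a; simp [hΦ, Psi_C]
      · intro i; simp [hΦ, Psi_X]
    exact congrArg (fun f => f q) h
  rw [h2, Polynomial.eval_zero] at h3
  exact Ideal.Quotient.eq_zero_iff_mem.1 h3.symm

end weighted

section family

variable {T : Type*} [CommRing T] [IsDomain T] [IsNoetherianRing T]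

/-- Lifting the primality of all subfamilies along the parameter `z`. -/
theorem lift_family {ι : Type*} [DecidableEq ι] (F : ι → T) (z : T) (E : Set ι)
    (hsep : ∀ W' ⊆ E, ∀ r q : T, r - 1 ∈ Ideal.span {z} →
      r * q ∈ Ideal.span (F '' W') → q ∈ Ideal.span (F '' W'))
    (hprime : ∀ W' ⊆ E, (Ideal.span (F '' W') ⊔ Ideal.span {z}).IsPrime)
    (hnot : ∀ W' ⊆ E, ∀ A ∈ E, A ∉ W' → F A ∉ Ideal.span (F '' W') ⊔ Ideal.span {z})
    (hz : ∀ W' ⊆ E, z ∉ Ideal.span (F '' W')) :
    ∀ W : Finset ι, (W : Set ι) ⊆ E → (Ideal.span (F '' (W : Set ι))).IsPrime := by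
  intro W
  induction W using Finset.induction_on with
  | empty =>
    intro _
    rw [Finset.coe_empty, Set.image_empty, Ideal.span_empty]
    exact Ideal.isPrime_bot
  | insert A W hAW ih =>
    intro hW
    have hWE : (W : Set ι) ⊆ E := fun B hB => hW (by simp [Finset.mem_coe.1 hB])
    have hAE : A ∈ E := hW (by simp)
    have h1 := ih hWE
    have h2 := hprime _ hW
    have h3 := hprime _ hWE
    have hins : Ideal.span (F '' ((insert A W : Finset ι) : Set ι)) =
        Ideal.span (F '' (W : Set ι)) ⊔ Ideal.span {F A} := by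
      rw [Finset.coe_insert, Set.image_insert_eq, Ideal.span_insert, sup_comm]
    refine isPrime_of_sup (z := z) (hsep _ hW) ?_ h2
    intro x hx
    rw [hins] at hx ⊢
    obtain ⟨i, hi, u, hu, hiu⟩ := Submodule.mem_sup.1 hx
    obtain ⟨w, rfl⟩ := Ideal.mem_span_singleton'.1 hu
    have h4 : w * F A ∈ Ideal.span (F '' (W : Set ι)) ⊔ Ideal.span {z} := by
      have h5 : w * F A = z * x - i := by rw [← hiu]; ring
      rw [h5]
      exact Ideal.sub_mem _
        (Ideal.mem_sup_right (Ideal.mul_mem_right _ _ (Ideal.mem_span_singleton_self _)))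
        (Ideal.mem_sup_left hi)
    have h5 := (h3.mem_or_mem h4).resolve_right (hnot _ hWE A hAE (by simpa using hAW))
    obtain ⟨i', hi', u', hu', hiu'⟩ := Submodule.mem_sup.1 h5
    obtain ⟨w', rfl⟩ := Ideal.mem_span_singleton'.1 hu'
    have h6 : z * (x - F A * w') ∈ Ideal.span (F '' (W : Set ι)) := by
      have h7 : z * (x - F A * w') = i + F A * i' := by
        have h8 : z * x = i + (i' + w' * z) * F A := by rw [hiu', hiu]
        linear_combination h8
      rw [h7]
      exact Ideal.add_mem _ hi (Ideal.mul_mem_left _ _ hi')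
    have h7 := (h1.mem_or_mem h6).resolve_left (hz _ hWE)
    have h8 : x = (x - F A * w') + w' * F A := by ring
    rw [h8]
    exact Ideal.add_mem _ (Ideal.mem_sup_left h7)
      (Ideal.mem_sup_right (Ideal.mul_mem_left _ _ (Ideal.mem_span_singleton_self _)))

end family

section linear

open Polynomial in
/-- A linear polynomial `s X + h` over a domain is prime if `h` is regular modulo `s ≠ 0`. -/
theorem linear_prime {D : Type*} [CommRing D] [IsDomain D] {s h : D} (hs : s ≠ 0)
    (hreg : ∀ a : D, s ∣ a * h → s ∣ a) :
    (Ideal.span {(Polynomial.C s * Polynomial.X + Polynomial.C h : Polynomial D)}).IsPrime := by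
  classical
  set K := FractionRing D
  set x : K := - algebraMap D K h / algebraMap D K s with hx
  have hs' : algebraMap D K s ≠ 0 := by
    intro h0
    exact hs ((IsFractionRing.injective D K) (by rw [h0, map_zero]))
  have hxs : x * algebraMap D K s = - algebraMap D K h := by
    rw [hx]; exact div_mul_cancel₀ _ hs'
  set φ : Polynomial D →+* K := Polynomial.eval₂RingHom (algebraMap D K) x with hφ
  have hregn : ∀ (n : ℕ) (a : D), s ∣ a * h ^ n → s ∣ a := by
    intro n
    induction n with
    | zero => intro a ha; simpa using ha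
    | succ n ih =>
      intro a ha
      apply ih
      apply hreg
      rw [pow_succ, ← mul_assoc] at ha
      exact ha
  have hgen : φ (Polynomial.C s * Polynomial.X + Polynomial.C h) = 0 := by
    rw [hφ, Polynomial.coe_eval₂RingHom]
    simp only [Polynomial.eval₂_add, Polynomial.eval₂_mul, Polynomial.eval₂_C, Polynomial.eval₂_X]
    rw [mul_comm, hxs]
    ring
  have key : ∀ (n : ℕ) (P : Polynomial D), P.natDegree ≤ n → φ P = 0 →
      P ∈ Ideal.span {(Polynomial.C s * Polynomial.X + Polynomial.C h : Polynomial D)} := by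
    intro n
    induction n with
    | zero =>
      intro P hP h0
      rw [Polynomial.eq_C_of_natDegree_le_zero hP] at h0 ⊢
      have h1 : algebraMap D K (P.coeff 0) = 0 := by
        rw [← h0, hφ, Polynomial.coe_eval₂RingHom, Polynomial.eval₂_C]
      rw [(IsFractionRing.injective D K) (h1.trans (map_zero _).symm), Polynomial.C_0]
      exact Ideal.zero_mem _
    | succ n ih =>
      intro P hP h0
      have h1 : ∑ i ∈ Finset.range (n + 2), algebraMap D K (P.coeff i) * x ^ i = 0 := by
        rw [← h0, hφ, Polynomial.coe_eval₂RingHom,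
          Polynomial.eval₂_eq_sum_range' _ (Nat.lt_succ_of_le hP)]
      have h2 : ∑ i ∈ Finset.range (n + 2), P.coeff i * (-h) ^ i * s ^ (n + 1 - i) = 0 := by
        apply IsFractionRing.injective D K
        rw [map_sum, map_zero]
        have h3 : (∑ i ∈ Finset.range (n + 2), algebraMap D K (P.coeff i) * x ^ i) *
            algebraMap D K s ^ (n + 1) = 0 := by rw [h1, zero_mul]
        rw [← h3, Finset.sum_mul]
        refine Finset.sum_congr rfl fun i hi => ?_
        have hi' : i ≤ n + 1 := by
          have := Finset.mem_range.1 hi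
          omega
        obtain ⟨m, hm⟩ := Nat.exists_eq_add_of_le hi'
        have h4 : n + 1 - i = m := by omega
        have h5 : x ^ i * algebraMap D K s ^ (n + 1) =
            (algebraMap D K (-h)) ^ i * algebraMap D K s ^ m := by
          rw [hm, pow_add, ← mul_assoc, ← mul_pow, hxs, map_neg]
        rw [h4, map_mul, map_mul, map_pow, map_pow, mul_assoc, mul_assoc, h5]
      rw [Finset.sum_range_succ] at h2
      have h3 : s ∣ P.coeff (n + 1) * (-h) ^ (n + 1) := by
        have h4 : P.coeff (n + 1) * (-h) ^ (n + 1) =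
            - ∑ i ∈ Finset.range (n + 1), P.coeff i * (-h) ^ i * s ^ (n + 1 - i) := by
          have h5 : n + 1 - (n + 1) = 0 := by omega
          rw [h5, pow_zero, mul_one] at h2
          linear_combination h2
        rw [h4]
        refine (dvd_neg).2 (Finset.dvd_sum fun i hi => ?_)
        have hi' := Finset.mem_range.1 hi
        exact Dvd.dvd.mul_left (dvd_pow_self s (by omega)) _
      have h4 : s ∣ P.coeff (n + 1) := by
        apply hregn (n + 1)
        rcases Nat.even_or_odd (n + 1) with he | ho
        · rwa [he.neg_pow] at h3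
        · rw [ho.neg_pow, mul_neg] at h3
          exact (dvd_neg).1 h3
      obtain ⟨r, hr⟩ := h4
      have h5 : P - Polynomial.C r * Polynomial.X ^ n *
          (Polynomial.C s * Polynomial.X + Polynomial.C h) ∈
          Ideal.span {(Polynomial.C s * Polynomial.X + Polynomial.C h : Polynomial D)} := by
        apply ih
        · rw [Polynomial.natDegree_le_iff_coeff_eq_zero]
          intro N hN
          have h6 : Polynomial.C r * Polynomial.X ^ n *
              (Polynomial.C s * Polynomial.X + Polynomial.C h) =
              Polynomial.C (s * r) * Polynomial.X ^ (n + 1) +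
              Polynomial.C (r * h) * Polynomial.X ^ n := by
            simp only [map_mul]
            ring
          rw [Polynomial.coeff_sub, h6, Polynomial.coeff_add, Polynomial.coeff_C_mul_X_pow,
            Polynomial.coeff_C_mul_X_pow, if_neg (by omega : ¬ N = n), add_zero]
          by_cases hN' : N = n + 1
          · rw [if_pos hN', hN', hr, sub_self]
          · rw [if_neg hN', sub_zero]
            exact Polynomial.coeff_eq_zero_of_natDegree_lt (by omega)
        · rw [map_sub, map_mul, hgen, mul_zero, h0, sub_zero]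
      have h6 : P = (P - Polynomial.C r * Polynomial.X ^ n *
          (Polynomial.C s * Polynomial.X + Polynomial.C h)) + Polynomial.C r * Polynomial.X ^ n *
          (Polynomial.C s * Polynomial.X + Polynomial.C h) := by ring
      rw [h6]
      exact Ideal.add_mem _ h5 (Ideal.mul_mem_left _ _ (Ideal.mem_span_singleton_self _))
  have heq : Ideal.span {(Polynomial.C s * Polynomial.X + Polynomial.C h : Polynomial D)} =
      RingHom.ker φ := by
    apply le_antisymm
    · rw [Ideal.span_le, Set.singleton_subset_iff]
      exact hgen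
    · intro P hP
      exact key _ P le_rfl hP
  rw [heq]
  exact RingHom.ker_isPrime φ

variable {V : Type*} {D : Type*} [CommRing D] [IsDomain D]

/-- `∏_{v ∈ A} X_v + h` is prime over a domain. -/
theorem prod_add_prime [DecidableEq V] {A : Finset V} (hA : A.Nonempty) {h : D} (hh : h ≠ 0) :
    (Ideal.span {(∏ v ∈ A, X v + C h : MvPolynomial V D)}).IsPrime := by
  obtain ⟨c, hc⟩ := hA
  set s : MvPolynomial V D := ∏ v ∈ A.erase c, X v with hs
  have hsm : s = monomial (∑ v ∈ A.erase c, Finsupp.single v 1) 1 := by
    rw [hs, monomial_sum_one]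
    rfl
  have hs0 : s ≠ 0 := by
    rw [hs]
    exact Finset.prod_ne_zero_iff.2 fun v _ => X_ne_zero v
  have hreg : ∀ a : MvPolynomial V D, s ∣ a * C h → s ∣ a := by
    intro a ha
    rw [hsm, monomial_one_dvd_iff_modMonomial_eq_zero] at ha ⊢
    ext m
    rw [coeff_zero]
    by_cases hm : (∑ v ∈ A.erase c, Finsupp.single v 1) ≤ m
    · exact coeff_modMonomial_of_le a hm
    · rw [coeff_modMonomial_of_not_le a hm]
      have h1 := congrArg (coeff m) ha
      rw [coeff_modMonomial_of_not_le _ hm, coeff_zero, mul_comm, coeff_C_mul] at h1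
      exact (mul_eq_zero.1 h1).resolve_left hh
  have hpr := linear_prime hs0 hreg
  set ρ : MvPolynomial V D →+* Polynomial (MvPolynomial V D) :=
    eval₂Hom (Polynomial.C.comp C) (fun v => if v = c then Polynomial.X else Polynomial.C (X v))
    with hρ
  have hρX : ∀ v, ρ (X v) = if v = c then Polynomial.X else Polynomial.C (X v) := by
    intro v; rw [hρ, coe_eval₂Hom, eval₂_X]
  have hρC : ∀ a, ρ (C a) = Polynomial.C (C a) := by
    intro a; rw [hρ, coe_eval₂Hom, eval₂_C]; rfl
  have hprod : (∏ v ∈ A, X v : MvPolynomial V D) = X c * s := by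
    rw [hs, Finset.mul_prod_erase A _ hc]
  have hρgen : ρ (∏ v ∈ A, X v + C h) =
      Polynomial.C s * Polynomial.X + Polynomial.C (C h) := by
    have hρs : ρ s = Polynomial.C s := by
      rw [hs, map_prod, map_prod]
      refine Finset.prod_congr rfl fun v hv => ?_
      rw [hρX, if_neg (Finset.ne_of_mem_erase hv)]
    rw [hprod, map_add, map_mul, hρX, if_pos rfl, hρs, hρC]
    ring
  set τ : Polynomial (MvPolynomial V D) →+* MvPolynomial V D :=
    Polynomial.evalRingHom (X c) with hτ
  have hτρ : τ.comp ρ = RingHom.id _ := by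
    apply MvPolynomial.ringHom_ext
    · intro a
      rw [RingHom.comp_apply, hρC, hτ]
      simp
    · intro v
      rw [RingHom.comp_apply, hρX, hτ]
      split_ifs with hv
      · simp [hv]
      · simp
  have heq : Ideal.span {(∏ v ∈ A, X v + C h : MvPolynomial V D)} =
      (Ideal.span {(Polynomial.C s * Polynomial.X + Polynomial.C (C h) :
        Polynomial (MvPolynomial V D))}).comap ρ := by
    apply le_antisymm
    · rw [Ideal.span_le, Set.singleton_subset_iff, SetLike.mem_coe, Ideal.mem_comap, hρgen]
      exact Ideal.mem_span_singleton_self _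
    · intro x hx
      rw [Ideal.mem_comap] at hx
      obtain ⟨y, hy⟩ := Ideal.mem_span_singleton'.1 hx
      have h1 : x = τ (ρ x) := (congrArg (fun f => f x) hτρ).symm
      rw [h1, ← hy, map_mul]
      have h2 : τ (Polynomial.C s * Polynomial.X + Polynomial.C (C h)) =
          ∏ v ∈ A, X v + C h := by
        rw [hτ, hprod, Polynomial.coe_evalRingHom, Polynomial.eval_add, Polynomial.eval_mul,
          Polynomial.eval_C, Polynomial.eval_C, Polynomial.eval_X, mul_comm s]
      rw [h2]
      exact Ideal.mul_mem_left _ _ (Ideal.mem_span_singleton_self _)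
  rw [heq]
  exact Ideal.IsPrime.comap ρ

end linear

section disj

universe u v

variable {V : Type u}

/-- Disjoint products: the polynomials `∏_{v ∈ A} X_v + h_A`, `A ∈ M`, generate a prime ideal. -/
theorem disjoint_prime [DecidableEq V] (M : Finset (Finset V)) :
    ∀ (D : Type (max u v)) [CommRing D] [IsDomain D] (h : Finset V → D),
      (∀ A ∈ M, A.Nonempty) → (∀ A ∈ M, ∀ B ∈ M, A ≠ B → Disjoint A B) → (∀ A ∈ M, h A ≠ 0) →
      (Ideal.span ((fun A : Finset V => (∏ v ∈ A, X v + C (h A) : MvPolynomial V D)) ''
        (M : Set (Finset V)))).IsPrime := by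
  induction M using Finset.induction_on with
  | empty =>
    intro D _ _ h _ _ _
    rw [Finset.coe_empty, Set.image_empty, Ideal.span_empty]
    exact Ideal.isPrime_bot
  | insert A M hAM ih =>
    intro D _ _ h hne hdisj hh
    have hA := hne A (Finset.mem_insert_self _ _)
    have hhA := hh A (Finset.mem_insert_self _ _)
    set I : Ideal (MvPolynomial V D) := Ideal.span {(∏ v ∈ A, X v + C (h A))} with hI
    have hIp : I.IsPrime := prod_add_prime hA hhA
    have hdom : IsDomain (MvPolynomial V D ⧸ I) := (Ideal.Quotient.isDomain_iff_prime _).2 hIp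
    set mk := Ideal.Quotient.mk I with hmk
    have hh' : ∀ B ∈ M, mk (C (h B)) ≠ 0 := by
      intro B hB h0
      rw [hmk, Ideal.Quotient.eq_zero_iff_mem] at h0
      obtain ⟨y, hy⟩ := Ideal.mem_span_singleton'.1 h0
      obtain ⟨c, hc⟩ := hA
      have h1 := congrArg (eval (fun v => if v = c then - h A else 1)) hy
      rw [map_mul, map_add, map_prod, eval_C, eval_C] at h1
      have h2 : ∏ v ∈ A, eval (fun v => if v = c then - h A else 1) (X v : MvPolynomial V D) =
          - h A := by
        rw [← Finset.mul_prod_erase A _ hc]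
        rw [eval_X, if_pos rfl, Finset.prod_eq_one, mul_one]
        intro v hv
        rw [eval_X, if_neg (Finset.ne_of_mem_erase hv)]
      rw [h2, neg_add_cancel, mul_zero] at h1
      exact hh B (Finset.mem_insert_of_mem hB) h1.symm
    have hJ' := ih (MvPolynomial V D ⧸ I) (fun B => mk (C (h B)))
      (fun B hB => hne B (Finset.mem_insert_of_mem hB))
      (fun B hB B' hB' => hdisj B (Finset.mem_insert_of_mem hB) B' (Finset.mem_insert_of_mem hB'))
      hh'
    set J' := Ideal.span ((fun B : Finset V => (∏ v ∈ B, X v + C (mk (C (h B))) :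
      MvPolynomial V (MvPolynomial V D ⧸ I))) '' (M : Set (Finset V))) with hJ'def
    set J := Ideal.span ((fun A : Finset V => (∏ v ∈ A, X v + C (h A) : MvPolynomial V D)) ''
        ((insert A M : Finset (Finset V)) : Set (Finset V))) with hJdef
    have hgenmem : ∀ B ∈ insert A M, (∏ v ∈ B, X v + C (h B) : MvPolynomial V D) ∈ J :=
      fun B hB => Ideal.subset_span ⟨B, hB, rfl⟩
    set ρ : MvPolynomial V D →+* MvPolynomial V (MvPolynomial V D ⧸ I) :=
      eval₂Hom (C.comp (mk.comp C)) (fun v => if v ∈ A then C (mk (X v)) else X v) with hρ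
    have hρX : ∀ v, ρ (X v) = if v ∈ A then C (mk (X v)) else X v := by
      intro v; rw [hρ, coe_eval₂Hom, eval₂_X]
    have hρC : ∀ a, ρ (C a) = C (mk (C a)) := by
      intro a; rw [hρ, coe_eval₂Hom, eval₂_C]; rfl
    have hIJ : I ≤ RingHom.ker (Ideal.Quotient.mk J) := by
      rw [Ideal.mk_ker, hI, Ideal.span_le, Set.singleton_subset_iff]
      exact hgenmem A (Finset.mem_insert_self _ _)
    set τ : MvPolynomial V (MvPolynomial V D ⧸ I) →+* (MvPolynomial V D ⧸ J) :=
      eval₂Hom (Ideal.Quotient.lift I (Ideal.Quotient.mk J) (fun a ha => RingHom.mem_ker.1 (hIJ ha)))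
        (fun v => Ideal.Quotient.mk J (X v)) with hτ
    have hτX : ∀ v, τ (X v) = Ideal.Quotient.mk J (X v) := by
      intro v; rw [hτ, coe_eval₂Hom, eval₂_X]
    have hτC : ∀ a, τ (C (mk a)) = Ideal.Quotient.mk J a := by
      intro a; rw [hτ, coe_eval₂Hom, eval₂_C]; exact Ideal.Quotient.lift_mk _ _ _
    have hτρ : τ.comp ρ = Ideal.Quotient.mk J := by
      apply MvPolynomial.ringHom_ext
      · intro a
        rw [RingHom.comp_apply, hρC, hτC]
      · intro v
        rw [RingHom.comp_apply, hρX]
        split_ifs with hv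
        · rw [hτC]
        · rw [hτX]
    have hτJ : J' ≤ RingHom.ker τ := by
      rw [hJ'def, Ideal.span_le]
      rintro _ ⟨B, hB, rfl⟩
      rw [SetLike.mem_coe, RingHom.mem_ker]
      simp only
      rw [map_add, map_prod, hτC, Finset.prod_congr rfl fun v _ => hτX v, ← map_prod, ← map_add,
        Ideal.Quotient.eq_zero_iff_mem]
      exact hgenmem B (Finset.mem_insert_of_mem hB)
    have heq : J = J'.comap ρ := by
      apply le_antisymm
      · rw [hJdef, Ideal.span_le]
        rintro _ ⟨B, hB, rfl⟩
        rw [SetLike.mem_coe, Ideal.mem_comap]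
        simp only
        rw [Finset.coe_insert] at hB
        rcases hB with rfl | hB
        · have h1 : ρ (∏ v ∈ B, X v + C (h B)) = C (mk (∏ v ∈ B, X v + C (h B))) := by
            rw [map_add, map_add, map_add, hρC, map_prod, map_prod, map_prod]
            congr 1
            refine Finset.prod_congr rfl fun v hv => ?_
            rw [hρX, if_pos hv]
          rw [h1, hmk, Ideal.Quotient.eq_zero_iff_mem.2 (Ideal.mem_span_singleton_self _), map_zero]
          exact Ideal.zero_mem _
        · have hBA : B ≠ A := by
            rintro rfl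
            exact hAM hB
          have hd := hdisj B (Finset.mem_insert_of_mem hB) A (Finset.mem_insert_self _ _) hBA
          have h1 : ρ (∏ v ∈ B, X v + C (h B)) = ∏ v ∈ B, X v + C (mk (C (h B))) := by
            rw [map_add, hρC, map_prod]
            congr 1
            refine Finset.prod_congr rfl fun v hv => ?_
            rw [hρX, if_neg (Finset.disjoint_left.1 hd hv)]
          rw [h1]
          exact Ideal.subset_span ⟨B, hB, rfl⟩
      · intro x hx
        rw [Ideal.mem_comap] at hx
        have h1 := hτJ hx
        rw [RingHom.mem_ker] at h1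
        have h2 : τ (ρ x) = Ideal.Quotient.mk J x := congrArg (fun f => f x) hτρ
        rw [h2] at h1
        exact Ideal.Quotient.eq_zero_iff_mem.1 h1
    rw [heq]
    exact Ideal.IsPrime.comap ρ

end disj

end Pool.Agent.Q271.LSS
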