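import Pool.Agent.Q271.LSS.Kill

/-!
# Adding one equation with two private variables to a prime ideal; extension of variables
-/

set_option autoImplicit false

namespace Pool.Agent.Q271.LSS

open MvPolynomial

universe u v

section tri

variable {σ : Type u} {k : Type v} [Field k]

/-- Adding the equation `∏_{z ∈ P} X_z + h = 0` with private variables `P`. -/
theorem tri_add [DecidableEq σ] {G : Set (MvPolynomial σ k)} (hG : (Ideal.span G).IsPrime)
    {P : Finset σ} (hP : P.Nonempty) {h : MvPolynomial σ k}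
    (hGP : ∀ g ∈ G, kill k (fun z => z ∈ P) g = g) (hh : kill k (fun z => z ∈ P) h = h)
    (hhG : h ∉ Ideal.span G) :
    (Ideal.span (insert (∏ z ∈ P, X z + h) G)).IsPrime := by
  classical
  have hdom : IsDomain (MvPolynomial σ k ⧸ Ideal.span G) :=
    (Ideal.Quotient.isDomain_iff_prime _).2 hG
  set mk := Ideal.Quotient.mk (Ideal.span G) with hmk
  have hmkh : mk h ≠ 0 := by
    intro h0
    rw [hmk, Ideal.Quotient.eq_zero_iff_mem] at h0
    exact hhG h0
  have hJ := prod_add_prime (V := σ) (D := MvPolynomial σ k ⧸ Ideal.span G) hP hmkh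
  set J := Ideal.span {(∏ v ∈ P, X v + C (mk h) : MvPolynomial σ (MvPolynomial σ k ⧸ Ideal.span G))}
    with hJdef
  set B := Ideal.span (insert (∏ z ∈ P, X z + h) G) with hB
  set χ : MvPolynomial σ k →+* MvPolynomial σ (MvPolynomial σ k ⧸ Ideal.span G) :=
    eval₂Hom (C.comp (mk.comp C)) (fun z => if z ∈ P then X z else C (mk (X z))) with hχ
  have hχX : ∀ z, χ (X z) = if z ∈ P then X z else C (mk (X z)) := by
    intro z; rw [hχ, coe_eval₂Hom, eval₂_X]
  have hχC : ∀ a, χ (C a) = C (mk (C a)) := by intro a; rw [hχ, coe_eval₂Hom, eval₂_C]; rfl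
  have hχk : ∀ p, kill k (fun z => z ∈ P) p = p → χ p = C (mk p) := by
    have h1 : χ.comp (kill k (fun z => z ∈ P)) =
        (C.comp mk).comp (kill k (fun z => z ∈ P)) := by
      apply MvPolynomial.ringHom_ext
      · intro a; rw [RingHom.comp_apply, RingHom.comp_apply, kill_C, hχC]; rfl
      · intro z
        rw [RingHom.comp_apply, RingHom.comp_apply, kill_X]
        split_ifs with hz
        · rw [map_zero, map_zero]
        · rw [hχX, if_neg hz]; rfl
    intro p hp
    have h2 := congrArg (fun f => f p) h1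
    simp only [RingHom.comp_apply] at h2
    rwa [hp] at h2
  have hGB : Ideal.span G ≤ B := Ideal.span_mono (Set.subset_insert _ _)
  set τ : MvPolynomial σ (MvPolynomial σ k ⧸ Ideal.span G) →+* (MvPolynomial σ k ⧸ B) :=
    eval₂Hom (Ideal.Quotient.lift (Ideal.span G) (Ideal.Quotient.mk B)
      (fun a ha => Ideal.Quotient.eq_zero_iff_mem.2 (hGB ha)))
      (fun z => Ideal.Quotient.mk B (X z)) with hτ
  have hτX : ∀ z, τ (X z) = Ideal.Quotient.mk B (X z) := by
    intro z; rw [hτ, coe_eval₂Hom, eval₂_X]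
  have hτC : ∀ a, τ (C (mk a)) = Ideal.Quotient.mk B a := by
    intro a; rw [hτ, coe_eval₂Hom, eval₂_C]; exact Ideal.Quotient.lift_mk _ _ _
  have hτχ : ∀ x, τ (χ x) = Ideal.Quotient.mk B x := by
    have h1 : τ.comp χ = Ideal.Quotient.mk B := by
      apply MvPolynomial.ringHom_ext
      · intro a; rw [RingHom.comp_apply, hχC, hτC]
      · intro z
        rw [RingHom.comp_apply, hχX]
        split_ifs
        · rw [hτX]
        · rw [hτC]
    intro x
    exact congrArg (fun f => f x) h1
  have heq : B = J.comap χ := by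
    apply le_antisymm
    · rw [hB, Ideal.span_le]
      intro x hx
      rw [SetLike.mem_coe, Ideal.mem_comap]
      rcases hx with rfl | hx
      · rw [map_add, map_prod, hχk h hh]
        have h1 : ∏ z ∈ P, χ (X z) = ∏ z ∈ P, X z :=
          Finset.prod_congr rfl fun z hz => by rw [hχX, if_pos hz]
        rw [h1]
        exact Ideal.mem_span_singleton_self _
      · rw [hχk x (hGP x hx), hmk, Ideal.Quotient.eq_zero_iff_mem.2 (Ideal.subset_span hx), map_zero]
        exact Ideal.zero_mem _
    · intro x hx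
      rw [Ideal.mem_comap] at hx
      obtain ⟨y, hy⟩ := Ideal.mem_span_singleton'.1 hx
      rw [← Ideal.Quotient.eq_zero_iff_mem, ← hτχ, ← hy, map_mul]
      have h1 : τ (∏ v ∈ P, X v + C (mk h)) = 0 := by
        rw [map_add, map_prod, hτC, Finset.prod_congr rfl fun z _ => hτX z, ← map_prod, ← map_add,
          Ideal.Quotient.eq_zero_iff_mem]
        exact Ideal.subset_span (Set.mem_insert _ _)
      rw [h1, mul_zero]
  rw [heq]
  exact Ideal.IsPrime.comap χ

/-- Extension of the set of variables. -/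
theorem rename_prime {σ' : Type u} {e : σ' → σ} (he : Function.Injective e)
    {G : Set (MvPolynomial σ' k)} (hG : (Ideal.span G).IsPrime) :
    (Ideal.span ((rename e : MvPolynomial σ' k →ₐ[k] MvPolynomial σ k) '' G)).IsPrime := by
  classical
  have hdom : IsDomain (MvPolynomial σ' k ⧸ Ideal.span G) :=
    (Ideal.Quotient.isDomain_iff_prime _).2 hG
  set mk := Ideal.Quotient.mk (Ideal.span G) with hmk
  set B := Ideal.span ((rename e : MvPolynomial σ' k →ₐ[k] MvPolynomial σ k) '' G) with hB
  set χ : MvPolynomial σ k →+* MvPolynomial σ (MvPolynomial σ' k ⧸ Ideal.span G) :=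
    eval₂Hom (C.comp (mk.comp C)) (fun z => if hz : ∃ w, e w = z then C (mk (X hz.choose)) else X z)
    with hχ
  have hχe : ∀ w, χ (X (e w)) = C (mk (X w)) := by
    intro w
    have hz : ∃ w', e w' = e w := ⟨w, rfl⟩
    rw [hχ, coe_eval₂Hom, eval₂_X, dif_pos hz, he hz.choose_spec]
  have hχX : ∀ z, (¬ ∃ w, e w = z) → χ (X z) = X z := by
    intro z hz; rw [hχ, coe_eval₂Hom, eval₂_X, dif_neg hz]
  have hχC : ∀ a, χ (C a) = C (mk (C a)) := by intro a; rw [hχ, coe_eval₂Hom, eval₂_C]; rfl
  have hχr : ∀ p, χ (rename e p) = C (mk p) := by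
    have h1 : χ.comp (rename e : MvPolynomial σ' k →ₐ[k] MvPolynomial σ k).toRingHom =
        C.comp mk := by
      apply MvPolynomial.ringHom_ext
      · intro a
        show χ (rename e (C a)) = _
        rw [rename_C, hχC]; rfl
      · intro w
        show χ (rename e (X w)) = _
        rw [rename_X, hχe]; rfl
    intro p
    exact congrArg (fun f => f p) h1
  have hker : ∀ a ∈ Ideal.span G,
      (Ideal.Quotient.mk B).comp (rename e : MvPolynomial σ' k →ₐ[k] MvPolynomial σ k).toRingHom a =
        0 := by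
    have h1 : Ideal.span G ≤ RingHom.ker ((Ideal.Quotient.mk B).comp
        (rename e : MvPolynomial σ' k →ₐ[k] MvPolynomial σ k).toRingHom) := by
      rw [Ideal.span_le]
      intro g hg
      rw [SetLike.mem_coe, RingHom.mem_ker]
      exact Ideal.Quotient.eq_zero_iff_mem.2 (Ideal.subset_span ⟨g, hg, rfl⟩)
    exact fun a ha => RingHom.mem_ker.1 (h1 ha)
  set τ : MvPolynomial σ (MvPolynomial σ' k ⧸ Ideal.span G) →+* (MvPolynomial σ k ⧸ B) :=
    eval₂Hom (Ideal.Quotient.lift (Ideal.span G) _ hker) (fun z => Ideal.Quotient.mk B (X z)) with hτ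
  have hτX : ∀ z, τ (X z) = Ideal.Quotient.mk B (X z) := by
    intro z; rw [hτ, coe_eval₂Hom, eval₂_X]
  have hτC : ∀ a, τ (C (mk a)) = Ideal.Quotient.mk B (rename e a) := by
    intro a; rw [hτ, coe_eval₂Hom, eval₂_C]; exact Ideal.Quotient.lift_mk _ _ _
  have hτχ : ∀ x, τ (χ x) = Ideal.Quotient.mk B x := by
    have h1 : τ.comp χ = Ideal.Quotient.mk B := by
      apply MvPolynomial.ringHom_ext
      · intro a; rw [RingHom.comp_apply, hχC, hτC, rename_C]
      · intro z
        rw [RingHom.comp_apply]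
        by_cases hz : ∃ w, e w = z
        · obtain ⟨w, rfl⟩ := hz
          rw [hχe, hτC, rename_X]
        · rw [hχX z hz, hτX]
    intro x
    exact congrArg (fun f => f x) h1
  have heq : B = RingHom.ker χ := by
    apply le_antisymm
    · rw [hB, Ideal.span_le]
      rintro _ ⟨g, hg, rfl⟩
      rw [SetLike.mem_coe, RingHom.mem_ker, hχr, hmk,
        Ideal.Quotient.eq_zero_iff_mem.2 (Ideal.subset_span hg), map_zero]
    · intro x hx
      rw [RingHom.mem_ker] at hx
      rw [← Ideal.Quotient.eq_zero_iff_mem, ← hτχ, hx, map_zero]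
  rw [heq]
  exact RingHom.ker_isPrime χ

end tri

end Pool.Agent.Q271.LSS
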